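import Mathlib

/-!
# Comparison maps: the formal part
-/

set_option autoImplicit false

namespace Pool.Agent.U213.PA

universe v

/-- A linear map of rational vector spaces. -/
structure Cmp where
  /-- the source (motivic cohomology with compact supports) -/
  A : Type v
  /-- the target (weight cohomology) -/
  B : Type v
  [grpA : AddCommGroup A]
  [modA : Module ℚ A]
  [grpB : AddCommGroup B]
  [modB : Module ℚ B]
  /-- the map -/
  e : A →ₗ[ℚ] B

attribute [instance] Cmp.grpA Cmp.modA Cmp.grpB Cmp.modB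

namespace Cmp

/-- The comparison map is an isomorphism. -/
def Good (C : Cmp.{v}) : Prop := Function.Bijective C.e

/-- A commutative square. -/
structure Hom (C D : Cmp.{v}) where
  /-- the map of the sources -/
  a : C.A →ₗ[ℚ] D.A
  /-- the map of the targets -/
  b : C.B →ₗ[ℚ] D.B
  comm : ∀ x, D.e (a x) = b (C.e x)

/-- `C → D → E` is exact on both sides. -/
def Exact {C D E : Cmp.{v}} (f : Hom C D) (g : Hom D E) : Prop :=
  Function.Exact f.a g.a ∧ Function.Exact f.b g.b

/-- `C` is a direct factor of `D`. -/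
def IsFactor (C D : Cmp.{v}) : Prop :=
  ∃ (s : Hom C D) (r : Hom D C), (∀ x, r.a (s.a x) = x) ∧ ∀ x, r.b (s.b x) = x

/-- `C` and `D` are isomorphic. -/
def IsIso (C D : Cmp.{v}) : Prop :=
  ∃ f : Hom C D, Function.Bijective f.a ∧ Function.Bijective f.b

/-- **The five lemma.** -/
theorem five {C D E F G : Cmp.{v}} (f : Hom C D) (g : Hom D E) (h : Hom E F) (e : Hom F G)
    (h1 : Exact f g) (h2 : Exact g h) (h3 : Exact h e) (hC : C.Good) (hD : D.Good)
    (hF : F.Good) (hG : G.Good) : E.Good :=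
  LinearMap.bijective_of_surjective_of_bijective_of_bijective_of_injective f.a g.a h.a e.a
    f.b g.b h.b e.b C.e D.e E.e F.e G.e (by ext x; exact (f.comm x).symm)
    (by ext x; exact (g.comm x).symm) (by ext x; exact (h.comm x).symm)
    (by ext x; exact (e.comm x).symm) h1.1 h2.1 h3.1 h1.2 h2.2 h3.2 hC.2 hD hF hG.1

/-- Direct factors. -/
theorem factor {C D : Cmp.{v}} (h : IsFactor C D) (hD : D.Good) : C.Good := by
  obtain ⟨s, r, h1, h2⟩ := h
  constructor
  · intro x y hxy
    have h3 : s.a x = s.a y := hD.1 (by rw [s.comm, s.comm, hxy])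
    rw [← h1 x, h3, h1]
  · intro y
    obtain ⟨x, hx⟩ := hD.2 (s.b y)
    exact ⟨r.a x, by rw [r.comm, hx, h2]⟩

theorem factor_source {C D : Cmp.{v}} (h : IsFactor C D) (hD : Subsingleton D.A) :
    Subsingleton C.A := by
  obtain ⟨s, r, h1, -⟩ := h
  exact ⟨fun x y => by rw [← h1 x, ← h1 y, Subsingleton.elim (s.a x) (s.a y)]⟩

theorem isoFactor {C D : Cmp.{v}} (h : IsIso C D) : IsFactor C D ∧ IsFactor D C := by
  obtain ⟨f, ha, hb⟩ := h
  let ea := LinearEquiv.ofBijective f.a ha
  let eb := LinearEquiv.ofBijective f.b hb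
  have h1 : ∀ x, f.a (ea.symm x) = x := ea.apply_symm_apply
  have h2 : ∀ x, f.b (eb.symm x) = x := eb.apply_symm_apply
  let g : Hom D C :=
    { a := ea.symm
      b := eb.symm
      comm := fun x => hb.1 (by
        change f.b (C.e (ea.symm x)) = f.b (eb.symm (D.e x))
        rw [← f.comm, h1, h2]) }
  exact ⟨⟨f, g, ea.symm_apply_apply, eb.symm_apply_apply⟩, ⟨g, f, h1, h2⟩⟩

theorem iso {C D : Cmp.{v}} (h : IsIso C D) : C.Good ↔ D.Good :=
  ⟨factor (isoFactor h).2, factor (isoFactor h).1⟩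

theorem good_of_subsingleton {C : Cmp.{v}} (hA : Subsingleton C.A) (hB : Subsingleton C.B) :
    C.Good := ⟨fun _ _ _ => Subsingleton.elim _ _, fun _ => ⟨0, Subsingleton.elim _ _⟩⟩

/-- The middle of an exact sequence. -/
lemma sub_mid {C D E : Cmp.{v}} (f : Hom C D) (g : Hom D E) (h : Exact f g) (hC : Subsingleton C.A)
    (hE : Subsingleton E.A) : Subsingleton D.A := by
  have h0 : ∀ x : D.A, x = 0 := fun x => by
    obtain ⟨z, hz⟩ := (h.1 x).1 (Subsingleton.elim _ _)
    rw [← hz, Subsingleton.elim z 0, map_zero]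
  exact ⟨fun x y => by rw [h0 x, h0 y]⟩

end Cmp

end Pool.Agent.U213.PA
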