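import Pool.Agent.U213.BP.NI
import Pool.Agent.Q282.UZ.Sys

/-!
# Properties which are closed under closed-open decompositions only

If a property is closed under isomorphisms and closed-open decompositions and true for the systems of
bilinear equations with at most three terms, then it is true for `X × 𝔾_m × 𝔾_m`, for every affine scheme
`X` of finite type. (The proof is the one of `Pool.Agent.Q282.UZ.three_cone`, without the last step.)
-/

set_option autoImplicit false

open CategoryTheory CategoryTheory.Limits AlgebraicGeometry MvPolynomial Pool.Agent.Y116.UV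
  Pool.Agent.Q282.UK Pool.Agent.Q282.UZ Pool.Agent.U213.BP

namespace Pool.Agent.U213.PA

section

variable {R : Type} [CommRing R] {sep : Prop} {P : Sch R → Prop} (hP : Dev sep P)
  (hH : ForThreeTerms P)

include hP hH

lemma dev_few {β γ κ : Type} [Fintype β] [Fintype γ] [Fintype κ] (f : κ → MvPolynomial (β ⊕ γ) R)
    (hf : ∀ k, IsFew (f k)) :
    P (aff R (MvPolynomial (β ⊕ γ) R ⧸ Ideal.span (Set.range f))) := by
  classical
  choose E hE hT using hf
  have h2 : f = fun k => few R (E k) := funext hT
  rw [h2]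
  exact dev_alg hP (fewRename (Fintype.equivFin β).symm (Fintype.equivFin γ).symm
    (Fintype.equivFin κ).symm E) (hH _ _ _ _ fun l => by rw [Finset.card_map]; exact hE _)

lemma dev_cone {A : Type} [CommRing A] [Algebra R A] [Algebra.FiniteType R A] {n D : ℕ} (hD : 1 ≤ D)
    (G : Finset (MvPolynomial (Fin n) R)) (φ : MvPolynomial (Fin n) R →ₐ[R] A)
    (hd : ∀ g ∈ G, ∀ m ∈ g.support, m.degree ≤ D) (hs : Function.Surjective φ)
    (hK : RingHom.ker φ = Ideal.span (G : Set (MvPolynomial (Fin n) R)))
    (hc : ∀ g ∈ G, Short g) : P (aff R (LaurentPolynomial (LaurentPolynomial A))) := by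
  classical
  have hG : ∀ g ∈ G, φ g = 0 := by
    intro g hg
    have : g ∈ RingHom.ker φ := by
      rw [hK]
      exact Ideal.subset_span hg
    exact this
  have hA : P (aff R (Cone hD G)) := dev_few hP hH (eqs hD G) (eqs_few hD G hd hc)
  let f' : Option (Mon n D ⊕ (Mon n D × Fin n) ⊕ G) → UVRing R n D := fun k =>
    k.elim (uu R (mo n D) * vv R (mo n D)) (eqs hD G)
  have h2 : P (aff R (UVRing R n D ⧸ Ideal.span (Set.range f'))) := by
    apply dev_few hP hH f'
    rintro (_ | k)
    · exact few_single _ _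
    · exact eqs_few hD G hd hc k
  have h3 : Ideal.span (Set.range f') =
      eqI hD G ⊔ Ideal.span {uu R (mo n D) * vv R (mo n D)} := by
    rw [eqI, ← Ideal.span_union]
    congr 1
    ext x
    constructor
    · rintro ⟨_ | k, rfl⟩
      · exact Or.inr rfl
      · exact Or.inl ⟨k, rfl⟩
    · rintro (⟨k, rfl⟩ | rfl)
      · exact ⟨some k, rfl⟩
      · exact ⟨none, rfl⟩
  rw [h3] at h2
  have h4 : P (aff R (Cone hD G ⧸ Ideal.span {cw hD G})) := by
    have e := (DoubleQuot.quotQuotEquivQuotSupₐ R (eqI hD G)
      (Ideal.span {uu R (mo n D) * vv R (mo n D)})).symm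
    have h5 := dev_alg (B := Cone hD G ⧸ Ideal.map (Ideal.Quotient.mkₐ R (eqI hD G))
      (Ideal.span {uu R (mo n D) * vv R (mo n D)})) hP e h2
    have h6 : Ideal.map (Ideal.Quotient.mkₐ R (eqI hD G))
        (Ideal.span {uu R (mo n D) * vv R (mo n D)}) = Ideal.span {cw hD G} := by
      rw [Ideal.map_span, Set.image_singleton]
      rfl
    rw [← h6]
    exact h5
  have h5 : P (aff R (LCone hD G)) := hP.opened _ _ (ft_aff sep) (triple_away (cw hD G)) h4 hA
  have h6 : Algebra.FiniteType R (LCone hD G) :=
    Algebra.FiniteType.trans (S := Cone hD G) inferInstance inferInstance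
  exact dev_alg hP (coneEquiv hD G φ hG hd hs hK) h5

/-- **Two copies of the multiplicative group.** -/
theorem dev_three (hS : ShortPresents R) (A : Type) [CommRing A] [Algebra R A]
    [Algebra.FiniteType R A] : P (aff R (LaurentPolynomial (LaurentPolynomial A))) := by
  classical
  obtain ⟨n, φ, G, hs, hK, hc⟩ := hS A
  let D : ℕ := 1 + ∑ g ∈ G, ∑ m ∈ g.support, m.degree
  refine dev_cone hP hH (D := D) (by omega) G φ ?_ hs hK hc
  intro g hg m hm
  have h1 : m.degree ≤ ∑ m ∈ g.support, m.degree :=
    Finset.single_le_sum (f := fun m : Fin n →₀ ℕ => m.degree) (fun _ _ => Nat.zero_le _) hm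
  have h2 : ∑ m ∈ g.support, m.degree ≤ ∑ g ∈ G, ∑ m ∈ g.support, m.degree :=
    Finset.single_le_sum (f := fun g : MvPolynomial (Fin n) R => ∑ m ∈ g.support, m.degree)
      (fun _ _ => Nat.zero_le _) hg
  omega

end

end Pool.Agent.U213.PA
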